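import Pool.Agent.Helper96_LAX.Stmts

/-! # LAX, module RND: the round lemma (helper18) -/

set_option autoImplicit false

namespace Pool.Agent.LAX.H18

open Pool.Agent.LAX

/-- module RND -/
theorem rnd (h1 : P1Stmt) (h2 : P2Stmt) (h3 : FcaStmt) : RndStmt := by
  intro k l s I h hp V _ E hE
  obtain ⟨F, Z, hC⟩ := h1 k l s I h hp V E hE
  obtain ⟨S, M, hS⟩ := h2 k l s I h hp V E hE F Z hC
  exact h3 k l s I h hp V E hE F Z S M hC hS

end Pool.Agent.LAX.H18
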